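import Pool.Agent.Helper27.Mono.F1b

/-! Packet F1: the limit of the contribution of one class. -/

namespace Mono

open Finset Filter Asymptotics Topology

theorem cs_eq_univ_of_isClass {n : ℕ} {Φ : Fan n} {σ : Finset (Fin n → ℤ)}
    {c : (Fin n → ℤ) → ℝ} (hc : Φ.IsClass σ c) : cs σ = univ := by
  apply Finset.eq_univ_of_forall
  intro i
  unfold cs
  rw [Finset.mem_filter]
  refine ⟨Finset.mem_univ i, ?_⟩
  by_contra hcon
  push Not at hcon
  have h1 := congrFun hc.2.2 i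
  rw [Finset.sum_apply] at h1
  have h2 : ∑ t ∈ σ, (c t • toR t) i = 0 := by
    refine Finset.sum_eq_zero fun t ht => ?_
    simp [hcon t ht]
  rw [h2] at h1
  exact one_ne_zero h1

theorem classLimit (h : LowDegree) : ClassLimit := by
  intro n Φ Z σ c hc η hη s hs
  set q := n - σ.card with hq
  set y := Φ.Yhat Z σ c s with hy
  set 𝓕 := Φ.mx.filter (fun F => σ ⊆ F) with h𝓕
  have hσn : σ.card ≤ n := by
    obtain ⟨F, hF, hσF⟩ := hc.1
    exact (Finset.card_le_card hσF).trans (Φ.mx_card F hF).le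
  let A : Finset (Fin n → ℤ) → ℝ := fun F =>
    1 / ((idx (F : Set (Fin n → ℤ)) : ℝ) * ∏ u ∈ F \ σ, crd F η u)
  have hE : ∀ p : MvPolynomial (Fin n → ℤ) ℝ,
      Φ.Esum σ η p = ∑ F ∈ 𝓕, A F * MvPolynomial.eval (crd F η) p := by
    intro p
    unfold Fan.Esum
    refine Finset.sum_congr rfl fun F _ => ?_
    simp only [A]
    ring
  -- remainder of one cone
  let Rm : Finset (Fin n → ℤ) → ℝ → ℝ := fun F ε =>
    YF Φ Z σ c (crd F η) s ε - MvPolynomial.eval (fun u => ε * crd F η u) y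
  have hRm : ∀ F, Rm F =O[𝓝 0] fun ε : ℝ => ε ^ (n + 1) := fun F =>
    (cl_YF Φ Z σ c (crd F η) s hc.2.1 hs).sub
  have hRlim : ∀ F, Tendsto (fun ε : ℝ => (ε ^ q)⁻¹ * Rm F ε) (𝓝[>] 0) (𝓝 0) := by
    intro F
    have h1 : (fun ε : ℝ => (ε ^ q)⁻¹ * Rm F ε) =O[𝓝[>] 0] fun ε : ℝ => (ε ^ q)⁻¹ * ε ^ (n + 1) :=
      (isBigO_refl _ _).mul ((hRm F).mono nhdsWithin_le_nhds)
    refine h1.trans_tendsto ?_
    have h2 : (fun ε : ℝ => (ε ^ q)⁻¹ * ε ^ (n + 1)) =ᶠ[𝓝[>] 0] fun ε => ε ^ (n + 1 - q) := by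
      filter_upwards [self_mem_nhdsWithin] with ε hε
      have hε0 : ε ≠ 0 := ne_of_gt hε
      have h4 := pow_sub₀ ε hε0 (show q ≤ n + 1 by omega)
      rw [h4, mul_comm]
    rw [tendsto_congr' h2]
    have h3 : Tendsto (fun ε : ℝ => ε ^ (n + 1 - q)) (𝓝 0) (𝓝 (0 ^ (n + 1 - q))) :=
      (continuous_pow _).tendsto 0
    rw [zero_pow (by omega)] at h3
    exact h3.mono_left nhdsWithin_le_nhds
  -- the main identity
  have hmain : (fun ε : ℝ => ∑ F ∈ 𝓕, Wterm Z F s ((fun _ => (1 : ℝ)) + ε • η)) =ᶠ[𝓝[>] 0]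
      fun ε => ∑ j ∈ range (y.totalDegree + 1), ((ε ^ q)⁻¹ * ε ^ j) *
        Φ.Esum σ η (MvPolynomial.homogeneousComponent j y) +
        ∑ F ∈ 𝓕, A F * ((ε ^ q)⁻¹ * Rm F ε) := by
    filter_upwards [self_mem_nhdsWithin] with ε hε
    have hε0 : ε ≠ 0 := ne_of_gt hε
    have h1 : ∀ F ∈ 𝓕, Wterm Z F s ((fun _ => (1 : ℝ)) + ε • η) =
        A F * ((ε ^ q)⁻¹ * MvPolynomial.eval (fun u => ε * crd F η u) y) +
          A F * ((ε ^ q)⁻¹ * Rm F ε) := by
      intro F hF
      rw [Finset.mem_filter] at hF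
      rw [wterm_eq hc hF.1 hF.2 hη s hε0]
      simp only [A, Rm]
      ring
    rw [Finset.sum_congr rfl h1, Finset.sum_add_distrib]
    congr 1
    have h2 : ∀ F ∈ 𝓕, A F * ((ε ^ q)⁻¹ * MvPolynomial.eval (fun u => ε * crd F η u) y) =
        ∑ j ∈ range (y.totalDegree + 1), ((ε ^ q)⁻¹ * ε ^ j) *
          (A F * MvPolynomial.eval (crd F η) (MvPolynomial.homogeneousComponent j y)) := by
      intro F _
      rw [eval_scale_sum, Finset.mul_sum, Finset.mul_sum]
      refine Finset.sum_congr rfl fun j _ => ?_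
      ring
    rw [Finset.sum_congr rfl h2, Finset.sum_comm]
    refine Finset.sum_congr rfl fun j _ => ?_
    rw [hE, Finset.mul_sum]
  rw [tendsto_congr' hmain]
  -- limits of the terms
  have hterm : ∀ j ∈ range (y.totalDegree + 1), Tendsto (fun ε : ℝ => ((ε ^ q)⁻¹ * ε ^ j) *
      Φ.Esum σ η (MvPolynomial.homogeneousComponent j y)) (𝓝[>] 0)
      (𝓝 (if j = q then Φ.Esum σ η (MvPolynomial.homogeneousComponent q y) else 0)) := by
    intro j _
    rcases lt_trichotomy j q with hj | hj | hj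
    · have h0 : Φ.Esum σ η (MvPolynomial.homogeneousComponent j y) = 0 :=
        h n Φ σ hc.1 (cs_eq_univ_of_isClass hc) η hη j _
          (MvPolynomial.homogeneousComponent_isHomogeneous j y) (by omega)
      rw [h0, if_neg hj.ne]
      simp
    · subst hj
      rw [if_pos rfl]
      refine tendsto_const_nhds.congr' ?_
      filter_upwards [self_mem_nhdsWithin] with ε hε
      have hε0 : ε ≠ 0 := ne_of_gt hε
      rw [inv_mul_cancel₀ (pow_ne_zero _ hε0), one_mul]
    · rw [if_neg hj.ne']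
      have h2 : (fun ε : ℝ => ((ε ^ q)⁻¹ * ε ^ j) *
          Φ.Esum σ η (MvPolynomial.homogeneousComponent j y)) =ᶠ[𝓝[>] 0] fun ε => ε ^ (j - q) *
          Φ.Esum σ η (MvPolynomial.homogeneousComponent j y) := by
        filter_upwards [self_mem_nhdsWithin] with ε hε
        have hε0 : ε ≠ 0 := ne_of_gt hε
        have h4 := pow_sub₀ ε hε0 hj.le
        rw [h4]
        ring
      rw [tendsto_congr' h2]
      have h3 : Tendsto (fun ε : ℝ => ε ^ (j - q) *
          Φ.Esum σ η (MvPolynomial.homogeneousComponent j y)) (𝓝 0)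
          (𝓝 (0 ^ (j - q) * Φ.Esum σ η (MvPolynomial.homogeneousComponent j y))) :=
        ((continuous_pow _).tendsto 0).mul_const _
      rw [zero_pow (by omega), zero_mul] at h3
      exact h3.mono_left nhdsWithin_le_nhds
  have hsum1 := tendsto_finsetSum (range (y.totalDegree + 1)) hterm
  have hsum2 : Tendsto (fun ε : ℝ => ∑ F ∈ 𝓕, A F * ((ε ^ q)⁻¹ * Rm F ε)) (𝓝[>] 0)
      (𝓝 (∑ F ∈ 𝓕, A F * 0)) :=
    tendsto_finsetSum 𝓕 fun F _ => (hRlim F).const_mul (A F)
  have htot := hsum1.add hsum2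
  have hval : (∑ j ∈ range (y.totalDegree + 1),
      if j = q then Φ.Esum σ η (MvPolynomial.homogeneousComponent q y) else 0) +
      ∑ F ∈ 𝓕, A F * 0 = Φ.Esum σ η (MvPolynomial.homogeneousComponent q y) := by
    simp only [mul_zero, Finset.sum_const_zero, add_zero]
    rw [Finset.sum_ite_eq' (range (y.totalDegree + 1)) q]
    split_ifs with hmem
    · rfl
    · have hlt : y.totalDegree < q := by
        rw [Finset.mem_range] at hmem
        omega
      rw [MvPolynomial.homogeneousComponent_eq_zero _ _ hlt, hE]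
      simp
  rw [hval] at htot
  exact htot

end Mono
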