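import Pool.Agent.Helper20.Mono.Goals

/-! Packet F1, part 1: asymptotic calculus and scaling of polynomials. -/

namespace Mono

open Finset Filter Asymptotics Topology

variable {n : ℕ}

theorem eval_scale {σ : Type*} {y : MvPolynomial σ ℝ} {d : ℕ} (hy : y.IsHomogeneous d) (ε : ℝ)
    (e : σ → ℝ) : MvPolynomial.eval (fun u => ε * e u) y = ε ^ d * MvPolynomial.eval e y := by
  rw [MvPolynomial.eval_eq, MvPolynomial.eval_eq, Finset.mul_sum]
  refine Finset.sum_congr rfl fun m hm => ?_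
  have hd : d = ∑ i ∈ m.support, m i := hy.degree_eq_sum_deg_support hm
  simp_rw [mul_pow]
  rw [Finset.prod_mul_distrib, Finset.prod_pow_eq_pow_sum, ← hd]
  ring

theorem eval_scale_sum {σ : Type*} (y : MvPolynomial σ ℝ) (ε : ℝ) (e : σ → ℝ) :
    MvPolynomial.eval (fun u => ε * e u) y = ∑ j ∈ range (y.totalDegree + 1),
      ε ^ j * MvPolynomial.eval e (MvPolynomial.homogeneousComponent j y) := by
  conv_lhs => rw [← MvPolynomial.sum_homogeneousComponent y]
  rw [map_sum]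
  exact Finset.sum_congr rfl fun j _ =>
    eval_scale (MvPolynomial.homogeneousComponent_isHomogeneous j y) ε e

/-- `f` and `g` are bounded and agree up to `O(ε^(n+1))`. -/
structure Cl (n : ℕ) (f g : ℝ → ℝ) : Prop where
  sub : (fun ε => f ε - g ε) =O[𝓝 0] fun ε : ℝ => ε ^ (n + 1)
  left : f =O[𝓝 0] fun _ : ℝ => (1 : ℝ)
  right : g =O[𝓝 0] fun _ : ℝ => (1 : ℝ)

theorem Cl.refl {f : ℝ → ℝ} (h : f =O[𝓝 0] fun _ : ℝ => (1 : ℝ)) : Cl n f f :=
  ⟨by simpa using isBigO_zero _ _, h, h⟩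

theorem Cl.of_continuousAt {f : ℝ → ℝ} (h : ContinuousAt f 0) : Cl n f f :=
  Cl.refl (h.isBigO_one ℝ)

theorem Cl.mul {f g f' g' : ℝ → ℝ} (h : Cl n f g) (h' : Cl n f' g') :
    Cl n (fun ε => f ε * f' ε) (fun ε => g ε * g' ε) := by
  refine ⟨?_, ?_, ?_⟩
  · have h1 : (fun ε => (f ε - g ε) * f' ε) =O[𝓝 0] fun ε : ℝ => ε ^ (n + 1) := by
      simpa using h.sub.mul h'.left
    have h2 : (fun ε => g ε * (f' ε - g' ε)) =O[𝓝 0] fun ε : ℝ => ε ^ (n + 1) := by
      simpa using h.right.mul h'.sub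
    refine (h1.add h2).congr_left fun ε => ?_
    ring
  · simpa using h.left.mul h'.left
  · simpa using h.right.mul h'.right

theorem Cl.sum {ι : Type*} (s : Finset ι) {f g : ι → ℝ → ℝ} (h : ∀ i ∈ s, Cl n (f i) (g i)) :
    Cl n (fun ε => ∑ i ∈ s, f i ε) (fun ε => ∑ i ∈ s, g i ε) := by
  refine ⟨?_, ?_, ?_⟩
  · have := IsBigO.sum (A := fun i ε => f i ε - g i ε) (s := s) fun i hi => (h i hi).sub
    refine this.congr_left fun ε => ?_
    rw [Finset.sum_apply, Finset.sum_sub_distrib]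
  · refine (IsBigO.sum fun i hi => (h i hi).left).congr_left fun ε => ?_
    rw [Finset.sum_apply]
  · refine (IsBigO.sum fun i hi => (h i hi).right).congr_left fun ε => ?_
    rw [Finset.sum_apply]

theorem Cl.prod {ι : Type*} (s : Finset ι) {f g : ι → ℝ → ℝ} (h : ∀ i ∈ s, Cl n (f i) (g i)) :
    Cl n (fun ε => ∏ i ∈ s, f i ε) (fun ε => ∏ i ∈ s, g i ε) := by
  classical
  induction s using Finset.induction_on with
  | empty => simpa using Cl.of_continuousAt (n := n) (f := fun _ => (1 : ℝ)) continuousAt_const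
  | insert i s hi ih =>
    have h1 := (h i (Finset.mem_insert_self i s)).mul
      (ih fun j hj => h j (Finset.mem_insert_of_mem hj))
    simpa [Finset.prod_insert hi] using h1

/-- The truncated geometric series. -/
theorem cl_tgeo {c : ℝ} (hc : c ≠ 0) (x : ℝ) :
    Cl n (fun ε => (c + ε * x)⁻¹)
      (fun ε => ∑ k ∈ range (n + 1), ((-1) ^ k * c⁻¹ ^ (k + 1)) * (ε * x) ^ k) := by
  have hcont : ContinuousAt (fun ε : ℝ => (c + ε * x)⁻¹) 0 := by
    refine ContinuousAt.inv₀ (by fun_prop) ?_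
    simpa using hc
  refine ⟨?_, hcont.isBigO_one ℝ, ?_⟩
  · have h1 : (fun ε : ℝ => (c + ε * x)⁻¹ * ((-x / c) ^ (n + 1) * ε ^ (n + 1))) =O[𝓝 0]
        fun ε : ℝ => ε ^ (n + 1) := by
      have h2 : (fun ε : ℝ => (-x / c) ^ (n + 1) * ε ^ (n + 1)) =O[𝓝 0]
          fun ε : ℝ => ε ^ (n + 1) := isBigO_const_mul_self _ _ _
      simpa using (hcont.isBigO_one ℝ).mul h2
    refine h1.congr' ?_ EventuallyEq.rfl
    have hne : ∀ᶠ ε : ℝ in 𝓝 0, c + ε * x ≠ 0 := by
      have : ContinuousAt (fun ε : ℝ => c + ε * x) 0 := by fun_prop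
      exact this.eventually_ne (by simpa using hc)
    filter_upwards [hne] with ε hε
    have h3 : ∑ k ∈ range (n + 1), ((-1) ^ k * c⁻¹ ^ (k + 1)) * (ε * x) ^ k =
        c⁻¹ * ∑ k ∈ range (n + 1), (-(ε * x) / c) ^ k := by
      rw [Finset.mul_sum]
      refine Finset.sum_congr rfl fun k _ => ?_
      rw [div_pow, neg_pow (ε * x) k, pow_succ, inv_pow]
      field_simp
    have h4 : (1 : ℝ) - -(ε * x) / c ≠ 0 := by
      intro h
      apply hε
      field_simp at h
      linarith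
    have h5 : (1 - -(ε * x) / c) * ∑ k ∈ range (n + 1), (-(ε * x) / c) ^ k =
        1 - (-(ε * x) / c) ^ (n + 1) := by
      have := mul_neg_geom_sum (-(ε * x) / c) (n + 1)
      exact this
    rw [h3]
    have h6 : ∑ k ∈ range (n + 1), (-(ε * x) / c) ^ k =
        (1 - (-(ε * x) / c) ^ (n + 1)) / (1 - -(ε * x) / c) := by
      rw [eq_div_iff h4, mul_comm]
      exact h5
    have h7 : c * (1 - -(ε * x) / c) = c + ε * x := by
      field_simp
      ring
    have h8 : c⁻¹ * ((1 - (-(ε * x) / c) ^ (n + 1)) / (1 - -(ε * x) / c)) =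
        (c + ε * x)⁻¹ * (1 - (-(ε * x) / c) ^ (n + 1)) := by
      rw [← h7, mul_inv, div_eq_mul_inv]
      ring
    rw [h6, h8]
    have h9 : (-(ε * x) / c) ^ (n + 1) = (-x / c) ^ (n + 1) * ε ^ (n + 1) := by
      rw [← mul_pow]
      congr 1
      ring
    rw [h9]
    ring
  · have : ContinuousAt (fun ε : ℝ => ∑ k ∈ range (n + 1),
        ((-1) ^ k * c⁻¹ ^ (k + 1)) * (ε * x) ^ k) 0 := by fun_prop
    exact this.isBigO_one ℝ

end Mono
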