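import Pool.Agent.Helper27.Mono.F1a

/-! Packet F1, part 2: the contribution of one maximal cone. -/

namespace Mono

open Finset Filter Asymptotics Topology

variable {n : ℕ}

/-- The numerator of the contribution of a cone. -/
noncomputable def YF (Φ : Fan n) (Z σ : Finset (Fin n → ℤ)) (c e : (Fin n → ℤ) → ℝ) (s ε : ℝ) :
    ℝ :=
  ((s + ∑ t ∈ σ \ Z, c t) + ε * ∑ u ∈ Φ.vert \ Z, e u)⁻¹ *
    ∑ B ∈ ((Φ.vert \ Z) \ σ).powerset, (∏ u ∈ B, (ε * e u)) *
      ∑ ρ ∈ (σ \ Z).powerset, ((-1) ^ (ρ.card + B.card) * (vol (ρ ∪ B) : ℝ) ^ 2) *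
        ∏ t ∈ σ \ ρ, (c t + ε * e t)⁻¹

theorem cl_YF (Φ : Fan n) (Z σ : Finset (Fin n → ℤ)) (c e : (Fin n → ℤ) → ℝ) (s : ℝ)
    (hc : ∀ t ∈ σ, c t ≠ 0) (hs : s + ∑ t ∈ σ \ Z, c t ≠ 0) :
    Cl n (YF Φ Z σ c e s)
      (fun ε => MvPolynomial.eval (fun u => ε * e u) (Φ.Yhat Z σ c s)) := by
  have h := ((cl_tgeo (n := n) hs (∑ u ∈ Φ.vert \ Z, e u)).mul
    (Cl.sum ((Φ.vert \ Z) \ σ).powerset
      (f := fun B ε => (∏ u ∈ B, (ε * e u)) *
      ∑ ρ ∈ (σ \ Z).powerset, ((-1) ^ (ρ.card + B.card) * (vol (ρ ∪ B) : ℝ) ^ 2) *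
        ∏ t ∈ σ \ ρ, (c t + ε * e t)⁻¹)
      (g := fun B ε => (∏ u ∈ B, (ε * e u)) *
      ∑ ρ ∈ (σ \ Z).powerset, ((-1) ^ (ρ.card + B.card) * (vol (ρ ∪ B) : ℝ) ^ 2) *
        ∏ t ∈ σ \ ρ, ∑ k ∈ range (n + 1), ((-1) ^ k * (c t)⁻¹ ^ (k + 1)) * (ε * e t) ^ k) ?_))
  · convert! h using 2 with ε
    simp only [Fan.Yhat, Fan.Y0, tgeo, map_sum, map_mul, map_prod, map_pow,
      MvPolynomial.eval_X, MvPolynomial.eval_C, Finset.mul_sum]
  · intro B _
    refine Cl.mul (Cl.of_continuousAt (by fun_prop)) (Cl.sum _ fun ρ _ => ?_)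
    refine Cl.mul (Cl.of_continuousAt continuousAt_const) (Cl.prod _ fun t ht => ?_)
    exact cl_tgeo (hc t (Finset.mem_sdiff.1 ht).1) (e t)

/-- Splitting of a sum over the subsets of a disjoint union. -/
theorem sum_powerset_split (S T : Finset (Fin n → ℤ)) (hST : Disjoint S T)
    (g : Finset (Fin n → ℤ) → ℝ) :
    ∑ τ ∈ (S ∪ T).powerset, g τ = ∑ B ∈ T.powerset, ∑ ρ ∈ S.powerset, g (ρ ∪ B) := by
  rw [← Finset.sum_product']
  symm
  refine Finset.sum_nbij' (fun p => p.2 ∪ p.1) (fun τ => (τ ∩ T, τ ∩ S)) ?_ ?_ ?_ ?_ ?_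
  · rintro ⟨B, ρ⟩ h
    simp only [Finset.mem_product, Finset.mem_powerset] at h ⊢
    exact Finset.union_subset_union h.2 h.1
  · intro τ h
    simp only [Finset.mem_product, Finset.mem_powerset]
    exact ⟨Finset.inter_subset_right, Finset.inter_subset_right⟩
  · rintro ⟨B, ρ⟩ h
    simp only [Finset.mem_product, Finset.mem_powerset] at h
    have h1 : Disjoint ρ T := hST.mono_left h.2
    have h2 : Disjoint B S := (hST.mono_right h.1).symm
    ext x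
    · simp only [Finset.mem_inter, Finset.mem_union]
      constructor
      · rintro ⟨h3 | h3, h4⟩
        · exact absurd h4 (Finset.disjoint_left.1 h1 h3)
        · exact h3
      · intro h3
        exact ⟨Or.inr h3, h.1 h3⟩
    · simp only [Finset.mem_inter, Finset.mem_union]
      constructor
      · rintro ⟨h3 | h3, h4⟩
        · exact h3
        · exact absurd h4 (Finset.disjoint_left.1 h2 h3)
      · intro h3
        exact ⟨Or.inl h3, h.2 h3⟩
  · intro τ h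
    simp only [Finset.mem_powerset] at h
    rw [← Finset.inter_union_distrib_left]
    exact Finset.inter_eq_left.2 h
  · rintro ⟨B, ρ⟩ h
    rfl

theorem crd_one {Φ : Fan n} {σ : Finset (Fin n → ℤ)} {c : (Fin n → ℤ) → ℝ}
    (hc : Φ.IsClass σ c) {F : Finset (Fin n → ℤ)} (hF : F ∈ Φ.mx) (hσ : σ ⊆ F) :
    crd F (fun _ => (1 : ℝ)) = fun u => if u ∈ σ then c u else 0 := by
  classical
  apply crd_unique (Φ.mx_indep F hF)
  refine ⟨fun u hu => ?_, ?_⟩
  · exact if_neg fun h => hu (hσ h)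
  · rw [hc.2.2, ← Finset.sum_subset hσ]
    · exact Finset.sum_congr rfl fun t ht => by simp only [ht, if_true]
    · intro u _ hu
      simp only [hu, if_false, zero_smul]

theorem wterm_eq {Φ : Fan n} {Z σ : Finset (Fin n → ℤ)} {c : (Fin n → ℤ) → ℝ}
    (hc : Φ.IsClass σ c) {F : Finset (Fin n → ℤ)} (hF : F ∈ Φ.mx) (hσ : σ ⊆ F) {η : Fin n → ℝ}
    (hη : Φ.Generic η) (s : ℝ) {ε : ℝ} (hε : ε ≠ 0) :
    Wterm Z F s ((fun _ => (1 : ℝ)) + ε • η) =
      (1 / ((idx (F : Set (Fin n → ℤ)) : ℝ) * ∏ u ∈ F \ σ, crd F η u)) *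
        ((ε ^ (n - σ.card))⁻¹ * YF Φ Z σ c (crd F η) s ε) := by
  classical
  set e := crd F η with he
  have hFi := Φ.mx_indep F hF
  have hFc := Φ.mx_card F hF
  have hFv := Φ.mx_sub F hF
  have he0 : ∀ u, u ∉ F → e u = 0 := fun u hu => crd_of_notMem F η hu
  have hene : ∀ u ∈ F, e u ≠ 0 := fun u hu => hη.1 F hF u hu
  have hw : ∀ u, crd F ((fun _ => (1 : ℝ)) + ε • η) u = (if u ∈ σ then c u else 0) + ε * e u := by
    intro u
    rw [crd_add hFi hFc, crd_smul hFi hFc, crd_one hc hF hσ]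
  set w : (Fin n → ℤ) → ℝ := fun u => (if u ∈ σ then c u else 0) + ε * e u with hwdef
  have hwe : crd F ((fun _ => (1 : ℝ)) + ε • η) = w := funext hw
  -- the linear form
  have hpsi : psi Z F ((fun _ => (1 : ℝ)) + ε • η) =
      ∑ t ∈ σ \ Z, c t + ε * ∑ u ∈ Φ.vert \ Z, e u := by
    unfold psi
    rw [hwe]
    simp only [w]
    rw [Finset.sum_add_distrib, ← Finset.mul_sum]
    congr 1
    · rw [← Finset.sum_subset (Finset.sdiff_subset_sdiff hσ (le_refl Z))]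
      · exact Finset.sum_congr rfl fun t ht => by rw [if_pos (Finset.mem_sdiff.1 ht).1]
      · intro u hu hu2
        rw [if_neg]
        intro h
        exact hu2 (Finset.mem_sdiff.2 ⟨h, (Finset.mem_sdiff.1 hu).2⟩)
    · congr 1
      apply Finset.sum_subset (Finset.sdiff_subset_sdiff hFv (le_refl Z))
      intro u hu hu2
      apply he0
      intro h
      exact hu2 (Finset.mem_sdiff.2 ⟨h, (Finset.mem_sdiff.1 hu).2⟩)
  -- the decomposition of `F \ Z`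
  have hdec : F \ Z = (σ \ Z) ∪ ((F \ Z) \ σ) := by
    ext u
    simp only [Finset.mem_union, Finset.mem_sdiff]
    constructor
    · rintro ⟨h1, h2⟩
      by_cases h3 : u ∈ σ
      · exact Or.inl ⟨h3, h2⟩
      · exact Or.inr ⟨⟨h1, h2⟩, h3⟩
    · rintro (⟨h1, h2⟩ | ⟨h1, -⟩)
      · exact ⟨hσ h1, h2⟩
      · exact h1
  have hdisj : Disjoint (σ \ Z) ((F \ Z) \ σ) := by
    rw [Finset.disjoint_left]
    intro u h1 h2
    exact (Finset.mem_sdiff.1 h2).2 (Finset.mem_sdiff.1 h1).1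
  set P : ℝ := ∏ u ∈ F \ σ, (ε * e u) with hP
  have hcardFσ : (F \ σ).card = n - σ.card := by
    rw [Finset.card_sdiff_of_subset hσ, hFc]
  have hPe : P = ε ^ (n - σ.card) * ∏ u ∈ F \ σ, e u := by
    rw [hP, Finset.prod_mul_distrib, Finset.prod_const, hcardFσ]
  -- the sum over the faces
  have hsum : ∑ τ ∈ (F \ Z).powerset, (-1) ^ τ.card * (vol τ : ℝ) ^ 2 /
      ∏ u ∈ F \ τ, crd F ((fun _ => (1 : ℝ)) + ε • η) u = P⁻¹ *
      ∑ B ∈ ((Φ.vert \ Z) \ σ).powerset, (∏ u ∈ B, (ε * e u)) *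
      ∑ ρ ∈ (σ \ Z).powerset, ((-1) ^ (ρ.card + B.card) * (vol (ρ ∪ B) : ℝ) ^ 2) *
        ∏ t ∈ σ \ ρ, (c t + ε * e t)⁻¹ := by
    rw [hwe]
    have hsub : ((F \ Z) \ σ).powerset ⊆ ((Φ.vert \ Z) \ σ).powerset := by
      apply Finset.powerset_mono.2
      exact Finset.sdiff_subset_sdiff (Finset.sdiff_subset_sdiff hFv (le_refl Z)) (le_refl σ)
    rw [← Finset.sum_subset hsub (by
      intro B hB hB2
      have : ∃ u ∈ B, u ∉ F := by
        by_contra hcon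
        push Not at hcon
        apply hB2
        rw [Finset.mem_powerset] at hB ⊢
        intro u hu
        have := Finset.mem_sdiff.1 (hB hu)
        exact Finset.mem_sdiff.2 ⟨Finset.mem_sdiff.2 ⟨hcon u hu, (Finset.mem_sdiff.1 this.1).2⟩,
          this.2⟩
      obtain ⟨u, huB, huF⟩ := this
      rw [Finset.prod_eq_zero huB (by rw [he0 u huF, mul_zero]), zero_mul])]
    have hsplit : ∑ τ ∈ (F \ Z).powerset, (-1) ^ τ.card * (vol τ : ℝ) ^ 2 / ∏ u ∈ F \ τ, w u =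
        ∑ B ∈ ((F \ Z) \ σ).powerset, ∑ ρ ∈ (σ \ Z).powerset,
          (-1) ^ (ρ ∪ B).card * (vol (ρ ∪ B) : ℝ) ^ 2 / ∏ u ∈ F \ (ρ ∪ B), w u := by
      rw [← sum_powerset_split _ _ hdisj
        (fun τ => (-1) ^ τ.card * (vol τ : ℝ) ^ 2 / ∏ u ∈ F \ τ, w u), ← hdec]
    rw [hsplit, Finset.mul_sum]
    refine Finset.sum_congr rfl fun B hB => ?_
    rw [Finset.mul_sum, Finset.mul_sum]
    refine Finset.sum_congr rfl fun ρ hρ => ?_
    rw [Finset.mem_powerset] at hB hρ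
    have hBF : B ⊆ F \ σ := by
      intro u hu
      have := Finset.mem_sdiff.1 (hB hu)
      exact Finset.mem_sdiff.2 ⟨(Finset.mem_sdiff.1 this.1).1, this.2⟩
    have hρσ : ρ ⊆ σ := fun u hu => (Finset.mem_sdiff.1 (hρ hu)).1
    have hdρB : Disjoint ρ B := by
      rw [Finset.disjoint_left]
      intro u h1 h2
      exact (Finset.mem_sdiff.1 (hBF h2)).2 (hρσ h1)
    have hFdec : F \ (ρ ∪ B) = (σ \ ρ) ∪ ((F \ σ) \ B) := by
      ext u
      simp only [Finset.mem_union, Finset.mem_sdiff, not_or]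
      constructor
      · rintro ⟨h1, h2, h3⟩
        by_cases h4 : u ∈ σ
        · exact Or.inl ⟨h4, h2⟩
        · exact Or.inr ⟨⟨h1, h4⟩, h3⟩
      · rintro (⟨h1, h2⟩ | ⟨⟨h1, h2⟩, h3⟩)
        · refine ⟨hσ h1, h2, fun h4 => ?_⟩
          exact (Finset.mem_sdiff.1 (hBF h4)).2 h1
        · exact ⟨h1, fun h4 => h2 (hρσ h4), h3⟩
    have hd2 : Disjoint (σ \ ρ) ((F \ σ) \ B) := by
      rw [Finset.disjoint_left]
      intro u h1 h2
      exact (Finset.mem_sdiff.1 (Finset.mem_sdiff.1 h2).1).2 (Finset.mem_sdiff.1 h1).1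
    have hprod : ∏ u ∈ F \ (ρ ∪ B), w u =
        (∏ t ∈ σ \ ρ, (c t + ε * e t)) * ∏ u ∈ (F \ σ) \ B, (ε * e u) := by
      rw [hFdec, Finset.prod_union hd2]
      congr 1
      · refine Finset.prod_congr rfl fun t ht => ?_
        simp only [w]
        rw [if_pos (Finset.mem_sdiff.1 ht).1]
      · refine Finset.prod_congr rfl fun u hu => ?_
        simp only [w]
        rw [if_neg (Finset.mem_sdiff.1 (Finset.mem_sdiff.1 hu).1).2, zero_add]
    have hPsplit : (∏ u ∈ (F \ σ) \ B, (ε * e u)) * ∏ u ∈ B, (ε * e u) = P :=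
      Finset.prod_sdiff hBF
    have hBne : ∏ u ∈ B, (ε * e u) ≠ 0 := Finset.prod_ne_zero_iff.2 fun u hu =>
      mul_ne_zero hε (hene u (Finset.mem_sdiff.1 (hBF hu)).1)
    have hRne : ∏ u ∈ (F \ σ) \ B, (ε * e u) ≠ 0 := Finset.prod_ne_zero_iff.2 fun u hu =>
      mul_ne_zero hε (hene u (Finset.mem_sdiff.1 (Finset.mem_sdiff.1 hu).1).1)
    rw [hprod, Finset.card_union_of_disjoint hdρB, Finset.prod_inv_distrib, ← hPsplit]
    rw [div_eq_mul_inv, mul_inv, mul_inv]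
    field_simp
  unfold Wterm YF
  rw [hsum, hpsi, hPe]
  rw [one_div, one_div, mul_inv, mul_inv, mul_inv, add_assoc]
  ring

end Mono
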